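import Pool.Agent.H942R3.AXMain

set_option autoImplicit false

open Finset Filter Topology

namespace Pool.Agent.Results.MP_456481_pr.Cutoff

open H942R3.AX

/-- the recursion `X_{n+1} = a X_n + b_n` -/
theorem pos_succ (a n : ℕ) (b : Fin (n + 1) → Fin 2) :
    pos a (n + 1) b = a * pos a n (fun i => b i.castSucc) + b (Fin.last n) := by
  rw [pos, pos, Fin.sum_univ_castSucc, Finset.mul_sum]
  congr 1
  · refine Finset.sum_congr rfl fun i _ => ?_
    have h : n + 1 - 1 - ((i.castSucc : Fin (n + 1)) : ℕ) = (n - 1 - (i : ℕ)) + 1 := by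
      have := i.2
      simp only [Fin.val_castSucc]
      omega
    rw [h, pow_succ]
    ring
  · simp

/-- the number of digit strings leading to `s` -/
def cnt (a q n s : ℕ) : ℕ := (univ.filter (fun b : Fin n → Fin 2 => pos a n b % q = s)).card

theorem cnt_succ (a q n s : ℕ) (hq : 0 < q) :
    cnt a q (n + 1) s = ∑ c : Fin 2, ∑ r ∈ range q,
      if (a * r + (c : ℕ)) % q = s then cnt a q n r else 0 := by
  unfold cnt
  rw [Finset.card_filter]
  rw [← Equiv.sum_comp (Fin.snocEquiv (fun _ => Fin 2)), Fintype.sum_prod_type]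
  refine Finset.sum_congr rfl fun c _ => ?_
  have h1 : ∀ b : Fin n → Fin 2,
      (if pos a (n + 1) (Fin.snocEquiv (fun _ => Fin 2) (c, b)) % q = s then 1 else 0) =
      (if (a * (pos a n b % q) + (c : ℕ)) % q = s then 1 else 0) := by
    intro b
    have h2 : pos a (n + 1) (Fin.snocEquiv (fun _ => Fin 2) (c, b)) =
        a * pos a n b + (c : ℕ) := by
      rw [pos_succ]
      simp [Fin.snocEquiv]
    rw [h2]
    have h3 : (a * pos a n b + (c : ℕ)) % q = (a * (pos a n b % q) + (c : ℕ)) % q := by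
      simp [Nat.add_mod, Nat.mul_mod]
    rw [h3]
  rw [Finset.sum_congr rfl fun b _ => h1 b]
  rw [← Finset.sum_fiberwise_of_maps_to (s := (univ : Finset (Fin n → Fin 2)))
    (t := range q) (g := fun b => pos a n b % q)
    (fun b _ => Finset.mem_range.2 (Nat.mod_lt _ hq))]
  refine Finset.sum_congr rfl fun r _ => ?_
  rw [Finset.sum_congr rfl (g := fun _ => if (a * r + (c : ℕ)) % q = s then 1 else 0)
    (fun b hb => by rw [(Finset.mem_filter.1 hb).2])]
  rw [Finset.sum_const]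
  split_ifs <;> simp

theorem sum_perm (a q c : ℕ) (hq : 0 < q) (hqa : q.Coprime a) (F : ℕ → ℝ) :
    ∑ r ∈ range q, F ((a * r + c) % q) = ∑ s ∈ range q, F s := by
  have hmaps : Set.MapsTo (fun r => (a * r + c) % q) (range q : Set ℕ) (range q : Set ℕ) := by
    intro r _
    rw [Finset.mem_coe, Finset.mem_range]
    exact Nat.mod_lt _ hq
  have hinj : Set.InjOn (fun r => (a * r + c) % q) (range q : Set ℕ) := by
    intro r hr s hs hrs
    rw [Finset.mem_coe, Finset.mem_range] at hr hs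
    have h1 : a * r + c ≡ a * s + c [MOD q] := hrs
    have h2 : a * r ≡ a * s [MOD q] := Nat.ModEq.add_right_cancel' c h1
    have h3 : r ≡ s [MOD q] := Nat.ModEq.cancel_left_of_coprime hqa h2
    exact Nat.ModEq.eq_of_lt_of_lt h3 hr hs
  have hsurj := Finset.surjOn_of_injOn_of_card_le _ hmaps hinj le_rfl
  exact Finset.sum_nbij (fun r => (a * r + c) % q) hmaps hinj hsurj (fun _ _ => rfl)

theorem tv_succ (a q n : ℕ) (hq : 0 < q) (hqa : q.Coprime a) :
    tv a q (n + 1) ≤ tv a q n := by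
  have hq' : (0:ℝ) < q := by exact_mod_cast hq
  have hlaw : ∀ n s, law a q n s = (cnt a q n s : ℝ) / 2 ^ n := fun _ _ => rfl
  have hone : ∀ (c : ℕ) (s : ℕ), s ∈ range q →
      ∑ r ∈ range q, (if (a * r + c) % q = s then (1:ℝ) else 0) = 1 := by
    intro c s hs
    rw [sum_perm a q c hq hqa (fun t => if t = s then (1:ℝ) else 0)]
    rw [Finset.sum_ite_eq']
    simp [hs]
  have hrec : ∀ s ∈ range q, law a q (n + 1) s - 1 / q =
      1 / 2 * ∑ c : Fin 2, ∑ r ∈ range q,
        if (a * r + (c : ℕ)) % q = s then (law a q n r - 1 / q) else 0 := by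
    intro s hs
    have h1 : ∀ c : Fin 2, ∑ r ∈ range q,
        (if (a * r + (c : ℕ)) % q = s then (law a q n r - 1 / q) else 0) =
        (∑ r ∈ range q, if (a * r + (c : ℕ)) % q = s then law a q n r else 0) - 1 / q := by
      intro c
      have h2 : (1:ℝ) / q = ∑ r ∈ range q, (if (a * r + (c : ℕ)) % q = s then (1:ℝ) else 0) * (1 / q) := by
        rw [← Finset.sum_mul, hone c s hs, one_mul]
      rw [eq_sub_iff_add_eq]
      nth_rewrite 2 [h2]
      rw [← Finset.sum_add_distrib]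
      refine Finset.sum_congr rfl fun r _ => ?_
      split_ifs <;> ring
    rw [Finset.sum_congr rfl fun c _ => h1 c, Finset.sum_sub_distrib, Finset.sum_const,
      Finset.card_univ, Fintype.card_fin, hlaw, cnt_succ a q n s hq]
    push_cast
    have h3 : ∀ c : Fin 2, ∑ r ∈ range q, (if (a * r + (c : ℕ)) % q = s then law a q n r else 0) =
        (∑ r ∈ range q, if (a * r + (c : ℕ)) % q = s then (cnt a q n r : ℝ) else 0) / 2 ^ n := by
      intro c
      rw [Finset.sum_div]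
      refine Finset.sum_congr rfl fun r _ => ?_
      split_ifs
      · exact hlaw n r
      · simp
    rw [Finset.sum_congr rfl fun c _ => h3 c, ← Finset.sum_div]
    rw [pow_succ]
    simp only [nsmul_eq_mul, Nat.cast_ofNat]
    ring
  unfold tv
  apply mul_le_mul_of_nonneg_left _ (by norm_num)
  calc ∑ s ∈ range q, |law a q (n + 1) s - 1 / q|
      ≤ ∑ s ∈ range q, 1 / 2 * ∑ c : Fin 2, ∑ r ∈ range q,
        if (a * r + (c : ℕ)) % q = s then |law a q n r - 1 / q| else 0 := by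
        apply Finset.sum_le_sum
        intro s hs
        rw [hrec s hs, abs_mul, abs_of_pos (by norm_num : (0:ℝ) < 1 / 2)]
        apply mul_le_mul_of_nonneg_left _ (by norm_num)
        refine (Finset.abs_sum_le_sum_abs _ _).trans (Finset.sum_le_sum fun c _ => ?_)
        refine (Finset.abs_sum_le_sum_abs _ _).trans (Finset.sum_le_sum fun r _ => ?_)
        split_ifs <;> simp
    _ = ∑ r ∈ range q, |law a q n r - 1 / q| := by
        rw [← Finset.mul_sum, Finset.sum_comm]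
        have h4 : ∀ c : Fin 2, ∑ s ∈ range q, ∑ r ∈ range q,
            (if (a * r + (c : ℕ)) % q = s then |law a q n r - 1 / q| else 0) =
            ∑ r ∈ range q, |law a q n r - 1 / q| := by
          intro c
          rw [Finset.sum_comm]
          refine Finset.sum_congr rfl fun r _ => ?_
          rw [Finset.sum_ite_eq]
          simp [Nat.mod_lt _ hq]
        rw [Finset.sum_congr rfl fun c _ => h4 c, Finset.sum_const, Finset.card_univ,
          Fintype.card_fin]
        simp only [nsmul_eq_mul, Nat.cast_ofNat]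
        ring

theorem tv_mono (a q : ℕ) (hq : 0 < q) (hqa : q.Coprime a) : Antitone (tv a q) :=
  antitone_nat_of_succ_le fun n => tv_succ a q n hq hqa

/-- the trivial lower bound -/
theorem tv_lower' (a q n : ℕ) (hq : 0 < q) : 1 - 2 ^ n / (q:ℝ) ≤ tv a q n := by
  have hq' : (0:ℝ) < q := by exact_mod_cast hq
  set T := (range q).filter (fun r => law a q n r ≠ 0) with hT
  have hTcard : T.card ≤ 2 ^ n := by
    have h1 : T ⊆ (univ : Finset (Fin n → Fin 2)).image (fun b => pos a n b % q) := by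
      intro r hr
      rw [hT, Finset.mem_filter] at hr
      rw [Finset.mem_image]
      by_contra hcon
      push Not at hcon
      apply hr.2
      rw [law]
      have : (univ.filter (fun b : Fin n → Fin 2 => pos a n b % q = r)) = ∅ := by
        apply Finset.filter_eq_empty_iff.2
        intro b _
        exact hcon b (Finset.mem_univ b)
      rw [this]
      simp
    refine (Finset.card_le_card h1).trans (Finset.card_image_le.trans ?_)
    simp
  have h2 : ∑ r ∈ range q, |law a q n r - 1 / q| ≥ 2 * (1 - T.card / q) := by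
    have h3 : ∑ r ∈ range q, |law a q n r - 1 / q| =
        ∑ r ∈ T, |law a q n r - 1 / q| + ∑ r ∈ (range q).filter (fun r => ¬ law a q n r ≠ 0), |law a q n r - 1 / q| := by
      rw [hT, Finset.sum_filter_add_sum_filter_not]
    have h4 : ∑ r ∈ (range q).filter (fun r => ¬ law a q n r ≠ 0), |law a q n r - 1 / q| =
        ((range q).filter (fun r => ¬ law a q n r ≠ 0)).card / q := by
      rw [Finset.card_eq_sum_ones]
      push_cast
      rw [Finset.sum_div]
      refine Finset.sum_congr rfl fun r hr => ?_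
      rw [Finset.mem_filter, not_not] at hr
      rw [hr.2, zero_sub, abs_neg, abs_of_pos (by positivity)]
    have h5 : ∑ r ∈ T, |law a q n r - 1 / q| ≥ 1 - T.card / q := by
      have h6 : ∑ r ∈ T, law a q n r = 1 := by
        rw [← sum_law a q n hq, hT, Finset.sum_filter_ne_zero]
      calc ∑ r ∈ T, |law a q n r - 1 / q| ≥ ∑ r ∈ T, (law a q n r - 1 / q) :=
            Finset.sum_le_sum fun r _ => le_abs_self _
        _ = 1 - T.card / q := by
            rw [Finset.sum_sub_distrib, h6, Finset.sum_const, nsmul_eq_mul]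
            ring
    have h7 := Finset.card_filter_add_card_filter_not (s := range q) (fun r => law a q n r ≠ 0)
    rw [← hT, Finset.card_range] at h7
    have h8 : (((range q).filter (fun r => ¬ law a q n r ≠ 0)).card : ℝ) = q - T.card := by
      rw [eq_sub_iff_add_eq, add_comm]
      exact_mod_cast h7
    rw [h3, h4, h8]
    have h9 : ((q:ℝ) - T.card) / q = 1 - T.card / q := by
      rw [sub_div, div_self hq'.ne']
    rw [h9]
    linarith
  have h10 : tv a q n = 1 / 2 * ∑ r ∈ range q, |law a q n r - 1 / q| := rfl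
  have h13 : (T.card : ℝ) ≤ 2 ^ n := by exact_mod_cast hTcard
  have h14 : (T.card : ℝ) / q ≤ 2 ^ n / q := div_le_div_of_nonneg_right h13 hq'.le
  linarith

open Classical in
/-- for a proportion close to one of the moduli up to `X` the distance after `R m` steps is
at most `lam ^ m` -/
theorem most_good (a : ℕ) (ha : 4 ≤ a) (R : ℕ) (hR : 2 ≤ R) (ε : ℝ) (hε : 0 < ε) :
    ∃ lam : ℝ, 0 < lam ∧ lam < 1 ∧ ∃ X0 : ℕ, ∀ X ≥ X0, ∀ m : ℕ, Nat.log 2 X + 1 ≤ (R - 1) * m →
      m ≤ Nat.log 2 X + 1 →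
      (((Icc 1 X).filter (fun q : ℕ => q.Coprime a ∧ lam ^ m < tv a q (R * m))).card : ℝ) ≤
        ε * X := by
  have ha1 : (1:ℝ) < a := by
    have : 1 < a := by omega
    exact_mod_cast this
  have ha0 : (0:ℝ) < a := by linarith
  obtain ⟨h0, hh0, hQ⟩ := Qs_small a ha
  -- choose `h`
  have hlim : Tendsto (fun n : ℕ => 16 / 3 * (5 / 8 : ℝ) ^ n) atTop (𝓝 (16 / 3 * 0)) :=
    (tendsto_pow_atTop_nhds_zero_of_lt_one (by norm_num) (by norm_num)).const_mul _
  rw [mul_zero] at hlim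
  obtain ⟨n1, hn1⟩ := Filter.eventually_atTop.1 (hlim.eventually (gt_mem_nhds (show 0 < ε / 2 by linarith)))
  set h := max h0 (2 * n1) with hh
  have hh0' : h0 ≤ h := le_max_left _ _
  have hhn : n1 ≤ h / 2 + 1 := by
    have : 2 * n1 ≤ h := le_max_right _ _
    omega
  have hhpos : 0 < h := by omega
  have hQh := hQ h hh0'
  -- the contraction factor
  set ρ : ℝ := 1 - 1 / (a:ℝ) ^ 2 with hρ
  have hρ0 : 0 < ρ := by
    rw [hρ, sub_pos, div_lt_one (by positivity)]
    nlinarith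
  have hρ1 : ρ < 1 := by
    rw [hρ]
    have : 0 < 1 / (a:ℝ) ^ 2 := by positivity
    linarith
  set κ : ℝ := ρ ^ ((1:ℝ) / h) with hκd
  have hhr : (0:ℝ) < h := by exact_mod_cast hhpos
  have hκ0 : 0 < κ := Real.rpow_pos_of_pos hρ0 _
  have hκ1 : κ < 1 := Real.rpow_lt_one hρ0.le hρ1 (by positivity)
  have hκ : κ ^ h = 1 - 1 / (a:ℝ) ^ 2 := by
    rw [hκd, ← Real.rpow_natCast, ← Real.rpow_mul hρ0.le, one_div_mul_cancel hhr.ne', Real.rpow_one]
  -- the exponent in the divisor bound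
  have hRr : (0:ℝ) < R := by
    have : 0 < R := by omega
    exact_mod_cast this
  have hla : 0 < Real.log a := Real.log_pos ha1
  have hlκ : Real.log κ < 0 := Real.log_neg hκ0 hκ1
  set e1 : ℝ := -Real.log κ / (2 * R * Real.log a) with he1
  have he1pos : 0 < e1 := by
    rw [he1]; apply div_pos <;> [linarith; positivity]
  obtain ⟨C, hC0, hC⟩ := H353.divisor_bound_real e1 he1pos
  set κ' : ℝ := κ * (a:ℝ) ^ (R * e1) with hκ'
  have hκ'eq : κ' = Real.exp (Real.log κ / 2) := by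
    rw [hκ', Real.rpow_def_of_pos ha0, ← Real.exp_log hκ0, ← Real.exp_add, Real.log_exp]
    congr 1
    rw [he1]
    field_simp
    ring
  have hκ'0 : 0 < κ' := by rw [hκ'eq]; exact Real.exp_pos _
  have hκ'1 : κ' < 1 := by
    rw [hκ'eq, Real.exp_lt_one_iff]; linarith
  -- the rate
  have hκκ' : κ ≤ κ' := by
    rw [hκ'eq, ← Real.log_le_iff_le_exp hκ0]
    linarith
  set lam : ℝ := κ' ^ ((1:ℝ) / 4) with hlam
  have hlam0 : 0 < lam := Real.rpow_pos_of_pos hκ'0 _
  have hlam1 : lam < 1 := Real.rpow_lt_one hκ'0.le hκ'1 (by norm_num)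
  have hlam4 : lam ^ 4 = κ' := by
    rw [hlam, ← Real.rpow_natCast, ← Real.rpow_mul hκ'0.le]
    norm_num
  -- smallness for large `m`
  have hlim2 : Tendsto (fun m : ℕ => R * (1 + C) * (lam ^ 2) ^ m) atTop (𝓝 (R * (1 + C) * 0)) :=
    (tendsto_pow_atTop_nhds_zero_of_lt_one (by positivity)
      (pow_lt_one₀ hlam0.le hlam1 (by norm_num))).const_mul _
  rw [mul_zero] at hlim2
  obtain ⟨m1, hm1⟩ := Filter.eventually_atTop.1 (hlim2.eventually (gt_mem_nhds (show 0 < ε / 2 by linarith)))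
  refine ⟨lam, hlam0, hlam1, 2 ^ (R * m1 + 1), fun X hX m hm hm' => ?_⟩
  have hlX : R * m1 + 1 ≤ Nat.log 2 X := by
    apply (Nat.le_log_iff_pow_le (by norm_num) (by
      have : 0 < 2 ^ (R * m1 + 1) := by positivity
      omega)).2 hX
  have hmm1 : m1 ≤ m := by
    by_contra hcon
    push Not at hcon
    have h1 : (R - 1) * m ≤ R * m := Nat.mul_le_mul_right m (by omega)
    have h2 : R * m ≤ R * m1 := Nat.mul_le_mul_left R hcon.le
    omega
  set W := Nat.log 2 X + 1 with hW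
  have hXW : X < 2 ^ W := Nat.lt_pow_succ_log_self (by norm_num) X
  have hWL : W ≤ R * m := by
    have h1 : (R - 1) * m ≤ R * m := Nat.mul_le_mul_right m (by omega)
    omega
  set L := R * m with hL
  set bad := (Icc 1 X).filter (fun q : ℕ => q.Coprime a ∧ ∃ k : ℕ, 0 < k ∧ k < q ∧
      h * na a ((k : ℝ) / q) L < L) with hbad
  set G := (Icc 1 X).filter (fun q : ℕ => (q.Coprime a ∧ lam ^ m < tv a q L) ∧ ¬ (∃ k : ℕ, 0 < k ∧ k < q ∧
      h * na a ((k : ℝ) / q) L < L)) with hG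
  have hcover : ((Icc 1 X).filter (fun q : ℕ => q.Coprime a ∧ lam ^ m < tv a q L)) ⊆ bad ∪ G := by
    intro q hq
    rw [Finset.mem_filter] at hq
    rw [Finset.mem_union, hbad, hG, Finset.mem_filter, Finset.mem_filter]
    by_cases hb : ∃ k : ℕ, 0 < k ∧ k < q ∧ h * na a ((k : ℝ) / q) L < L
    · left; exact ⟨hq.1, hq.2.1, hb⟩
    · right; exact ⟨hq.1, hq.2, hb⟩
  have hb1 : (bad.card : ℝ) ≤ X * (16 / 3 * (5 / 8) ^ (h / 2 + 1)) :=
    bad_card a ha h W L X hXW hWL hQh
  have hb2 : (bad.card : ℝ) ≤ ε / 2 * X := by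
    have := hn1 (h / 2 + 1) hhn
    have hX0 : (0:ℝ) ≤ X := Nat.cast_nonneg X
    nlinarith
  -- the good moduli
  set τ : ℝ := C * ((a:ℝ) ^ L) ^ e1 with hτ
  have hτ0 : 0 ≤ τ := by rw [hτ]; positivity
  have hτb : ∀ n : ℕ, n ≠ 0 → n < a ^ L → (n.divisors.card : ℝ) ≤ τ := by
    intro n hn hnL
    refine (hC n hn).trans ?_
    rw [hτ]
    apply mul_le_mul_of_nonneg_left _ hC0.le
    apply Real.rpow_le_rpow (Nat.cast_nonneg _) _ he1pos.le
    exact_mod_cast hnL.le
  have hGsum : (G.card : ℝ) * (lam ^ m) ^ 2 ≤ ∑ q ∈ G, (2 * tv a q L) ^ 2 := by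
    rw [← nsmul_eq_mul, ← Finset.sum_const]
    apply Finset.sum_le_sum
    intro q hq
    rw [hG, Finset.mem_filter] at hq
    have h1 := hq.2.1.2
    have h2 : 0 < lam ^ m := by positivity
    apply pow_le_pow_left₀ h2.le
    linarith
  have hGsum2 : ∑ q ∈ G, (2 * tv a q L) ^ 2 ≤ R * (κ ^ m * (X * (1 + τ))) := by
    calc ∑ q ∈ G, (2 * tv a q L) ^ 2
        ≤ ∑ q ∈ G, ∑ r ∈ range R, κ ^ m * ∑ k ∈ range q,
            ∏ j ∈ range (R * m) \ Ico (r * m) (r * m + m), cs q k (a ^ j) := by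
          apply Finset.sum_le_sum
          intro q hq
          rw [hG, Finset.mem_filter, Finset.mem_Icc] at hq
          refine (tv_bound a q L (by omega)).trans ?_
          refine good_bound a (by omega) h R m q (by omega) κ hκ0.le hκ1.le hκ ?_
          intro k hk hkq
          by_contra hcon
          push Not at hcon
          exact hq.2.2 ⟨k, hk, hkq, hcon⟩
      _ ≤ ∑ q ∈ Icc 1 X, ∑ r ∈ range R, κ ^ m * ∑ k ∈ range q,
            ∏ j ∈ range (R * m) \ Ico (r * m) (r * m + m), cs q k (a ^ j) := by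
          apply Finset.sum_le_sum_of_subset_of_nonneg
          · rw [hG]; exact Finset.filter_subset _ _
          · intro q _ _
            apply Finset.sum_nonneg
            intro r _
            apply mul_nonneg (pow_nonneg hκ0.le _)
            apply Finset.sum_nonneg
            intro k _
            exact Finset.prod_nonneg fun j _ => cs_nonneg _ _ _
      _ = ∑ r ∈ range R, κ ^ m * ∑ q ∈ Icc 1 X, ∑ k ∈ range q,
            ∏ j ∈ range (R * m) \ Ico (r * m) (r * m + m), cs q k (a ^ j) := by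
          rw [Finset.sum_comm]
          refine Finset.sum_congr rfl fun r _ => ?_
          rw [Finset.mul_sum]
      _ ≤ ∑ r ∈ range R, κ ^ m * (X * (1 + τ)) := by
          apply Finset.sum_le_sum
          intro r hr
          rw [Finset.mem_range] at hr
          apply mul_le_mul_of_nonneg_left _ (pow_nonneg hκ0.le _)
          have hsub : Ico (r * m) (r * m + m) ⊆ range (R * m) := by
            intro j hj
            rw [Finset.mem_Ico] at hj
            rw [Finset.mem_range]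
            have : (r + 1) * m ≤ R * m := Nat.mul_le_mul_right m hr
            have h3 : (r + 1) * m = r * m + m := by ring
            omega
          have hcard : (range (R * m) \ Ico (r * m) (r * m + m)).card = (R - 1) * m := by
            rw [Finset.card_sdiff_of_subset hsub, Finset.card_range, Nat.card_Ico,
              Nat.add_sub_cancel_left, Nat.sub_mul, one_mul]
          refine (sum_mod a (by omega) L X _ Finset.sdiff_subset τ hτ0 hτb).trans ?_
          rw [hcard]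
          apply mul_le_mul_of_nonneg_left _ (Nat.cast_nonneg X)
          have h5 : (X : ℝ) ≤ 2 ^ ((R - 1) * m) := by
            have h6 : X ≤ 2 ^ ((R - 1) * m) := by
              calc X ≤ 2 ^ W := hXW.le
                _ ≤ 2 ^ ((R - 1) * m) := Nat.pow_le_pow_right (by norm_num) hm
            exact_mod_cast h6
          have h7 : (X : ℝ) / 2 ^ ((R - 1) * m) ≤ 1 := by
            rw [div_le_one (by positivity)]; exact h5
          linarith
      _ = R * (κ ^ m * (X * (1 + τ))) := by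
          rw [Finset.sum_const, Finset.card_range, nsmul_eq_mul]
  have hτκ : κ ^ m * τ = C * κ' ^ m := by
    rw [hτ, hκ', mul_pow, ← Real.rpow_natCast ((a:ℝ) ^ (R * e1)) m, ← Real.rpow_mul ha0.le,
      ← Real.rpow_natCast (a:ℝ) L, ← Real.rpow_mul ha0.le, hL]
    push_cast
    rw [show (R:ℝ) * m * e1 = R * e1 * m by ring]
    ring
  have hGcard : (G.card : ℝ) ≤ ε / 2 * X := by
    have h1 := hm1 m hmm1
    have h2 : (G.card : ℝ) * (lam ^ m) ^ 2 ≤ R * (κ ^ m * (X * (1 + τ))) := hGsum.trans hGsum2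
    have h3 : R * (κ ^ m * (X * (1 + τ))) = R * (κ ^ m + C * κ' ^ m) * X := by
      rw [← hτκ]; ring
    rw [h3] at h2
    have hX0 : (0:ℝ) ≤ X := Nat.cast_nonneg X
    have h4 : κ ^ m ≤ κ' ^ m := pow_le_pow_left₀ hκ0.le hκκ' m
    have h5 : κ' ^ m = (lam ^ m) ^ 2 * (lam ^ 2) ^ m := by
      rw [← hlam4, ← pow_mul, ← pow_mul, ← pow_mul, ← pow_add]
      congr 1
      ring
    have h6 : 0 < (lam ^ m) ^ 2 := by positivity
    have hR0 : (0:ℝ) ≤ R := hRr.le
    have h7 : (G.card : ℝ) * (lam ^ m) ^ 2 ≤ (ε / 2 * X) * (lam ^ m) ^ 2 := by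
      calc (G.card : ℝ) * (lam ^ m) ^ 2 ≤ R * (κ ^ m + C * κ' ^ m) * X := h2
        _ ≤ R * (κ' ^ m + C * κ' ^ m) * X := by gcongr
        _ = (R * (1 + C) * (lam ^ 2) ^ m) * X * (lam ^ m) ^ 2 := by
            rw [h5]; ring
        _ ≤ (ε / 2 * X) * (lam ^ m) ^ 2 := by
            apply mul_le_mul_of_nonneg_right _ h6.le
            exact mul_le_mul_of_nonneg_right h1.le hX0
    exact le_of_mul_le_mul_right h7 h6
  have hfin : (((Icc 1 X).filter (fun q : ℕ => q.Coprime a ∧ lam ^ m < tv a q L)).card : ℝ) ≤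
      bad.card + G.card := by
    have := (Finset.card_le_card hcover).trans (Finset.card_union_le _ _)
    exact_mod_cast this
  linarith


open Classical in
/-- the exceptional moduli up to `X` for the upper bound -/
noncomputable def excU (a : ℕ) (δ c : ℝ) (X : ℕ) : Finset ℕ :=
  (Icc 2 X).filter (fun q : ℕ => q.Coprime a ∧
    ¬ ∀ n : ℕ, (1 + δ) * Real.logb 2 q ≤ n → tv a q n ≤ (q:ℝ) ^ (-c))

theorem excU_small (a : ℕ) (ha : 4 ≤ a) (δ : ℝ) (hδ : 0 < δ) (ε : ℝ) (hε : 0 < ε) :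
    ∃ c : ℝ, 0 < c ∧ ∃ X0 : ℕ, ∀ X ≥ X0, ((excU a δ c X).card : ℝ) ≤ ε * X := by
  classical
  -- choose `R`
  obtain ⟨R, hR2, hRδ⟩ : ∃ R : ℕ, 2 ≤ R ∧ (R : ℝ) ≤ (1 + δ / 4) * (R - 1) := by
    obtain ⟨n, hn⟩ := exists_nat_gt (4 / δ)
    refine ⟨n + 2, by omega, ?_⟩
    push_cast
    have h1 : 4 / δ < n + 1 := by linarith
    rw [div_lt_iff₀ hδ] at h1
    nlinarith
  obtain ⟨lam, hlam0, hlam1, X1, hX1⟩ := most_good a ha R hR2 (ε / 2) (by linarith)
  have hRpos : (0:ℝ) < R := by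
    have : 0 < R := by omega
    exact_mod_cast this
  have hll : 0 < -Real.logb 2 lam := by
    have := Real.logb_neg (b := 2) (by norm_num) hlam0 hlam1
    linarith
  refine ⟨-Real.logb 2 lam / R, by positivity, ?_⟩
  -- lower cut-off for q: `q ≥ θ X`, with `θ = ε/2` (at most one)
  set θ : ℝ := min (ε / 2) 1 with hθ
  have hθ0 : 0 < θ := by rw [hθ]; exact lt_min (by linarith) one_pos
  have hθ1 : θ ≤ 1 := min_le_right _ _
  have hθε : θ ≤ ε / 2 := min_le_left _ _
  -- logs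
  have hlog : Tendsto (fun X : ℕ => Real.logb 2 X) atTop atTop :=
    (Real.tendsto_logb_atTop (by norm_num)).comp tendsto_natCast_atTop_atTop
  obtain ⟨X2, hX2⟩ := Filter.eventually_atTop.1 (hlog.eventually
    (eventually_ge_atTop ((R + (1 + δ) * (-Real.logb 2 θ)) * 4 / (3 * δ))))
  refine ⟨max (max X1 X2) 2, fun X hX => ?_⟩
  have hXX1 : X1 ≤ X := le_trans (le_trans (le_max_left _ _) (le_max_left _ _)) hX
  have hXX2 : X2 ≤ X := le_trans (le_trans (le_max_right _ _) (le_max_left _ _)) hX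
  have hX2' : 2 ≤ X := le_trans (le_max_right _ _) hX
  have hXpos : (0:ℝ) < X := by
    have : 0 < X := by omega
    exact_mod_cast this
  set l := Nat.log 2 X with hl
  set m := l / (R - 1) + 1 with hm
  have hm1 : l + 1 ≤ (R - 1) * m := by
    rw [hm]
    have := Nat.lt_mul_div_succ l (show 0 < R - 1 by omega)
    omega
  have hm2 : m ≤ l + 1 := by
    rw [hm]
    have := Nat.div_le_self l (R - 1)
    omega
  have hgood := hX1 X hXX1 m hm1 hm2
  set LX := Real.logb 2 X with hLX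
  have hlLX : (l : ℝ) ≤ LX := by
    rw [hLX, Real.le_logb_iff_rpow_le (by norm_num) hXpos, Real.rpow_natCast]
    have := Nat.pow_log_le_self 2 (show X ≠ 0 by omega)
    exact_mod_cast this
  have hLXm : LX ≤ R * m := by
    have h1 : LX ≤ ((l + 1 : ℕ) : ℝ) := by
      rw [hLX, Real.logb_le_iff_le_rpow (by norm_num) hXpos, Real.rpow_natCast]
      have := (Nat.lt_pow_succ_log_self (b := 2) (by norm_num) X).le
      exact_mod_cast this
    have h2 : l + 1 ≤ R * m := hm1.trans (Nat.mul_le_mul_right m (by omega))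
    have h3 : ((l + 1 : ℕ) : ℝ) ≤ ((R * m : ℕ) : ℝ) := by exact_mod_cast h2
    push_cast at h3 h1
    linarith
  have hLm : ((R * m : ℕ) : ℝ) ≤ (1 + δ / 4) * LX + R := by
    have h1 : ((l / (R - 1) : ℕ) : ℝ) ≤ (l : ℝ) / ((R - 1 : ℕ) : ℝ) := Nat.cast_div_le
    have hR1 : ((R - 1 : ℕ) : ℝ) = (R : ℝ) - 1 := by
      rw [Nat.cast_sub (by omega)]; simp
    rw [hR1] at h1
    have hR1pos : (0:ℝ) < (R : ℝ) - 1 := by
      have : (2:ℝ) ≤ R := by exact_mod_cast hR2
      linarith
    rw [hm]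
    push_cast
    have h2 : (R : ℝ) * ((l : ℝ) / ((R:ℝ) - 1)) ≤ (1 + δ / 4) * LX := by
      rw [mul_div_assoc', div_le_iff₀ hR1pos]
      have hl0 : (0:ℝ) ≤ l := Nat.cast_nonneg l
      have hR0 : (0:ℝ) ≤ R := Nat.cast_nonneg R
      calc (R:ℝ) * l ≤ ((1 + δ / 4) * (R - 1)) * l := mul_le_mul_of_nonneg_right hRδ hl0
        _ ≤ ((1 + δ / 4) * (R - 1)) * LX := by
            apply mul_le_mul_of_nonneg_left hlLX
            apply mul_nonneg (by linarith) hR1pos.le
        _ = _ := by ring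
    have hR0 : (0:ℝ) ≤ R := Nat.cast_nonneg R
    calc (R:ℝ) * ((l / (R - 1) : ℕ) + 1) = R * ((l / (R - 1) : ℕ) : ℝ) + R := by ring
      _ ≤ R * ((l : ℝ) / ((R:ℝ) - 1)) + R := by
          have := mul_le_mul_of_nonneg_left h1 hR0
          linarith
      _ ≤ _ := by linarith
  have hkey := hX2 X hXX2
  rw [← hLX] at hkey
  have hθlog : Real.logb 2 θ ≤ 0 := Real.logb_nonpos (by norm_num) hθ0.le hθ1
  -- cover
  have hcover : excU a δ (-Real.logb 2 lam / R) X ⊆
      ((Icc 1 X).filter (fun q : ℕ => q.Coprime a ∧ lam ^ m < tv a q (R * m))) ∪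
      (Icc 1 X).filter (fun q : ℕ => (q : ℝ) ≤ θ * X) := by
    intro q hq
    rw [excU, Finset.mem_filter, Finset.mem_Icc] at hq
    obtain ⟨⟨hq2, hqX⟩, hqa, hno⟩ := hq
    rw [Finset.mem_union, Finset.mem_filter, Finset.mem_filter, Finset.mem_Icc]
    by_contra hcon
    push Not at hcon
    obtain ⟨hc1, hc2⟩ := hcon
    have hA := hc1 ⟨by omega, hqX⟩ hqa
    have hB := hc2 ⟨by omega, hqX⟩
    apply hno
    intro n hn
    have hqpos : (0:ℝ) < q := by
      have : 0 < q := by omega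
      exact_mod_cast this
    set Lq := Real.logb 2 q with hLq
    have hLqLX : LX + Real.logb 2 θ ≤ Lq := by
      rw [hLX, hLq, add_comm, ← Real.logb_mul hθ0.ne' hXpos.ne']
      exact Real.logb_le_logb_of_le (by norm_num) (by positivity) hB.le
    have hRmn : R * m ≤ n := by
      have h1 : ((R * m : ℕ) : ℝ) ≤ (n : ℝ) := by
        refine le_trans ?_ hn
        rw [div_le_iff₀ (by positivity)] at hkey
        have h2 : (1 + δ) * (LX + Real.logb 2 θ) ≤ (1 + δ) * Lq :=
          mul_le_mul_of_nonneg_left hLqLX (by linarith)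
        nlinarith
      exact_mod_cast h1
    refine (tv_mono a q (by omega) hqa hRmn).trans (hA.trans ?_)
    -- `lam ^ m ≤ q ^ (-c)`
    have h3 : Lq ≤ R * m := by
      refine le_trans ?_ hLXm
      rw [hLX, hLq]
      exact Real.logb_le_logb_of_le (by norm_num) hqpos (by exact_mod_cast hqX)
    rw [← Real.logb_le_logb (b := 2) (by norm_num) (by positivity) (by positivity),
      Real.logb_pow, Real.logb_rpow_eq_mul_logb_of_pos hqpos, ← hLq]
    have h4 : Lq / R ≤ m := by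
      rw [div_le_iff₀ hRpos]
      linarith
    have h5 : -Real.logb 2 lam * (Lq / R) ≤ -Real.logb 2 lam * m :=
      mul_le_mul_of_nonneg_left h4 hll.le
    have h6 : -(-Real.logb 2 lam / R) * Lq = -(-Real.logb 2 lam * (Lq / R)) := by ring
    rw [h6]
    linarith
  have hcard2 : (((Icc 1 X).filter (fun q : ℕ => (q : ℝ) ≤ θ * X)).card : ℝ) ≤ θ * X := by
    have h1 : (Icc 1 X).filter (fun q : ℕ => (q : ℝ) ≤ θ * X) ⊆ Icc 1 ⌊θ * X⌋₊ := by
      intro q hq
      rw [Finset.mem_filter, Finset.mem_Icc] at hq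
      rw [Finset.mem_Icc]
      exact ⟨hq.1.1, Nat.le_floor hq.2⟩
    have h2 := Finset.card_le_card h1
    rw [Nat.card_Icc, Nat.add_sub_cancel] at h2
    calc (((Icc 1 X).filter (fun q : ℕ => (q : ℝ) ≤ θ * X)).card : ℝ) ≤ (⌊θ * X⌋₊ : ℝ) := by exact_mod_cast h2
      _ ≤ θ * X := Nat.floor_le (by positivity)
  have h5 : ((excU a δ (-Real.logb 2 lam / R) X).card : ℝ) ≤
      (((Icc 1 X).filter (fun q : ℕ => q.Coprime a ∧ lam ^ m < tv a q (R * m))).card : ℝ) +
      (((Icc 1 X).filter (fun q : ℕ => (q : ℝ) ≤ θ * X)).card : ℝ) := by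
    have := (Finset.card_le_card hcover).trans (Finset.card_union_le _ _)
    exact_mod_cast this
  have h6 : θ * X ≤ ε / 2 * X := mul_le_mul_of_nonneg_right hθε hXpos.le
  linarith

open Classical in
/-- the `q ≥ 2` coprime to `a` with the property `P` have density `0` relative to the integers
coprime to `a` -/
def Few (a : ℕ) (P : ℕ → Prop) : Prop :=
  Tendsto (fun x : ℕ => (((Icc 2 x).filter (fun q : ℕ => q.Coprime a ∧ P q)).card : ℝ) /
    (((Icc 1 x).filter (fun q : ℕ => q.Coprime a)).card : ℝ)) atTop (𝓝 0)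

open Classical in
/-- the same with respect to all integers -/
def Thin (a : ℕ) (P : ℕ → Prop) : Prop :=
  ∀ ε : ℝ, 0 < ε → ∃ X0 : ℕ, ∀ X ≥ X0,
    (((Icc 2 X).filter (fun q : ℕ => q.Coprime a ∧ P q)).card : ℝ) ≤ ε * X

theorem few_of_thin (a : ℕ) (ha : 1 ≤ a) (P : ℕ → Prop) (h : Thin a P) : Few a P := by
  classical
  have ha0 : (0:ℝ) < a := by
    have : 0 < a := by omega
    exact_mod_cast this
  unfold Few
  rw [Metric.tendsto_atTop]
  intro ε hε
  obtain ⟨X0, hX0⟩ := h (ε / (4 * a)) (by positivity)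
  refine ⟨max X0 a, fun X hX => ?_⟩
  have h1 := hX0 X (le_trans (le_max_left _ _) hX)
  have h2 := coprime_card a ha X (le_trans (le_max_right _ _) hX)
  have haX : a ≤ X := le_trans (le_max_right _ _) hX
  have hXpos : (0:ℝ) < X := by
    have : 0 < X := by omega
    exact_mod_cast this
  have hden : 0 < (((Icc 1 X).filter (fun q : ℕ => q.Coprime a)).card : ℝ) :=
    lt_of_lt_of_le (by positivity) h2
  rw [Real.dist_eq, sub_zero, abs_of_nonneg (by positivity), div_lt_iff₀ hden]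
  calc (((Icc 2 X).filter (fun q : ℕ => q.Coprime a ∧ P q)).card : ℝ)
      ≤ ε / (4 * a) * X := h1
    _ = ε / 2 * (X / (2 * a)) := by field_simp; ring
    _ < ε * (X / (2 * a)) := by
        apply mul_lt_mul_of_pos_right (by linarith) (by positivity)
    _ ≤ ε * (((Icc 1 X).filter (fun q : ℕ => q.Coprime a)).card : ℝ) :=
        mul_le_mul_of_nonneg_left h2 hε.le

theorem card_split (a : ℕ) (P Q : ℕ → Prop) [DecidablePred P] [DecidablePred Q] (Q0 X : ℕ)
    (h : ∀ q, Q0 ≤ q → 2 ≤ q → q.Coprime a → Q q → P q) :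
    (((Icc 2 X).filter (fun q : ℕ => q.Coprime a ∧ Q q)).card : ℝ) ≤
      ((Icc 2 X).filter (fun q : ℕ => q.Coprime a ∧ P q)).card + Q0 := by
  have h1 : (Icc 2 X).filter (fun q : ℕ => q.Coprime a ∧ Q q) ⊆
      (Icc 2 X).filter (fun q : ℕ => q.Coprime a ∧ P q) ∪ range Q0 := by
    intro q hq
    rw [Finset.mem_filter, Finset.mem_Icc] at hq
    rw [Finset.mem_union, Finset.mem_filter, Finset.mem_Icc, Finset.mem_range]
    by_cases hqQ : q < Q0
    · right; exact hqQ
    · left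
      exact ⟨hq.1, hq.2.1, h q (not_lt.1 hqQ) hq.1.1 hq.2.1 hq.2.2⟩
  have h2 := (Finset.card_le_card h1).trans (Finset.card_union_le _ _)
  rw [Finset.card_range] at h2
  exact_mod_cast h2

theorem thin_mono (a : ℕ) (P Q : ℕ → Prop) (hP : Thin a P) (Q0 : ℕ)
    (h : ∀ q, Q0 ≤ q → 2 ≤ q → q.Coprime a → Q q → P q) : Thin a Q := by
  classical
  intro ε hε
  obtain ⟨X0, hX0⟩ := hP (ε / 2) (by positivity)
  obtain ⟨N, hN⟩ := exists_nat_ge (2 * Q0 / ε)
  refine ⟨max X0 N, fun X hX => ?_⟩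
  have h1 := hX0 X (le_trans (le_max_left _ _) hX)
  have h2 := card_split a P Q Q0 X h
  have h3 : (N : ℝ) ≤ X := by exact_mod_cast le_trans (le_max_right _ _) hX
  have h4 : 2 * (Q0:ℝ) / ε ≤ X := hN.trans h3
  rw [div_le_iff₀ hε] at h4
  linarith

/-- the event of the cutoff with rate `ω` -/
def Cut (a q : ℕ) (δ w : ℝ) : Prop :=
  (∀ n : ℕ, (1 + δ) * Real.logb 2 q ≤ n → tv a q n ≤ (q:ℝ) ^ (-w)) ∧
    ∀ n : ℕ, (n:ℝ) ≤ (1 - δ) * Real.logb 2 q → 1 - (q:ℝ) ^ (-δ) ≤ tv a q n

theorem cut_lower (a q : ℕ) (hq : 0 < q) (δ : ℝ) (n : ℕ)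
    (hn : (n:ℝ) ≤ (1 - δ) * Real.logb 2 q) : 1 - (q:ℝ) ^ (-δ) ≤ tv a q n := by
  have hq' : (0:ℝ) < q := by exact_mod_cast hq
  refine le_trans ?_ (tv_lower' a q n hq)
  have h1 : (2:ℝ) ^ n ≤ (q:ℝ) ^ (1 - δ) := by
    rw [← Real.rpow_natCast]
    calc (2:ℝ) ^ (n:ℝ) ≤ 2 ^ ((1 - δ) * Real.logb 2 q) :=
          Real.rpow_le_rpow_of_exponent_le (by norm_num) hn
      _ = (q:ℝ) ^ (1 - δ) := by
          rw [mul_comm, Real.rpow_mul (by norm_num), Real.rpow_logb (by norm_num) (by norm_num) hq']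
  have h2 : (2:ℝ) ^ n / q ≤ (q:ℝ) ^ (-δ) := by
    rw [div_le_iff₀ hq']
    calc (2:ℝ) ^ n ≤ (q:ℝ) ^ (1 - δ) := h1
      _ = (q:ℝ) ^ (-δ) * q := by
          rw [show (1:ℝ) - δ = -δ + 1 by ring, Real.rpow_add hq', Real.rpow_one]
  linarith

theorem thin_cut (a : ℕ) (ha : 4 ≤ a) (δ : ℝ) (hδ : 0 < δ) (ω : ℕ → ℝ)
    (hω : Tendsto ω atTop (𝓝 0)) : Thin a (fun q => ¬ Cut a q δ (ω q)) := by
  classical
  intro ε hε
  obtain ⟨c, hc, X0, hX0⟩ := excU_small a ha δ hδ (ε / 2) (by positivity)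
  obtain ⟨Q0, hQ0⟩ := Filter.eventually_atTop.1 (hω.eventually (gt_mem_nhds hc))
  obtain ⟨N, hN⟩ := exists_nat_ge (2 * Q0 / ε)
  refine ⟨max X0 N, fun X hX => ?_⟩
  have h1 := hX0 X (le_trans (le_max_left _ _) hX)
  have h2 := card_split a
    (fun q => ¬ ∀ n : ℕ, (1 + δ) * Real.logb 2 q ≤ n → tv a q n ≤ (q:ℝ) ^ (-c))
    (fun q => ¬ Cut a q δ (ω q)) Q0 X (by
      intro q hq hq2 _ hno hcon
      apply hno
      refine ⟨fun n hn => (hcon n hn).trans ?_, fun n hn => cut_lower a q (by omega) δ n hn⟩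
      have hq1 : (1:ℝ) ≤ q := by
        have : 1 ≤ q := by omega
        exact_mod_cast this
      exact Real.rpow_le_rpow_of_exponent_le hq1 (neg_le_neg (hQ0 q hq).le))
  have h3 : (N : ℝ) ≤ X := by exact_mod_cast le_trans (le_max_right _ _) hX
  have h4 : 2 * (Q0:ℝ) / ε ≤ X := hN.trans h3
  rw [div_le_iff₀ hε] at h4
  have h5 : ((excU a δ c X).card : ℝ) = (((Icc 2 X).filter (fun q : ℕ => q.Coprime a ∧
      ¬ ∀ n : ℕ, (1 + δ) * Real.logb 2 q ≤ n → tv a q n ≤ (q:ℝ) ^ (-c))).card : ℝ) := by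
    unfold excU
    congr
  rw [h5] at h1
  refine le_trans (le_of_eq ?_) (h2.trans (b := _) (by linarith))
  congr

/-- `t` is the mixing time at level `η`: `t = min {n ≥ 0 : d_q(n) ≤ η}` -/
def IsMixingTime (a q : ℕ) (η : ℝ) (t : ℕ) : Prop := IsLeast {n : ℕ | tv a q n ≤ η} t

theorem thin_level (a : ℕ) (ha : 4 ≤ a) (δ : ℝ) (hδ : 0 < δ) (η : ℝ) (hη0 : 0 < η)
    (hη1 : η < 1) :
    Thin a (fun q => ¬ ∃ t : ℕ, IsMixingTime a q η t ∧ |(t : ℝ) / Real.logb 2 q - 1| ≤ δ) := by
  classical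
  have hlogq : Tendsto (fun q : ℕ => Real.log q) atTop atTop :=
    Real.tendsto_log_atTop.comp tendsto_natCast_atTop_atTop
  have hω : Tendsto (fun q : ℕ => -Real.log η / Real.log q) atTop (𝓝 0) :=
    hlogq.const_div_atTop _
  have hthin := thin_cut a ha (δ / 2) (by positivity) _ hω
  have hlogb : Tendsto (fun q : ℕ => Real.logb 2 q) atTop atTop :=
    (Real.tendsto_logb_atTop (by norm_num)).comp tendsto_natCast_atTop_atTop
  have hpow : Tendsto (fun q : ℕ => (q:ℝ) ^ (-(δ / 2))) atTop (𝓝 0) :=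
    (tendsto_rpow_neg_atTop (by positivity)).comp tendsto_natCast_atTop_atTop
  obtain ⟨Q1, hQ1⟩ := Filter.eventually_atTop.1 (hlogb.eventually (eventually_ge_atTop (2 / δ)))
  obtain ⟨Q2, hQ2⟩ := Filter.eventually_atTop.1
    (hpow.eventually (gt_mem_nhds (show 0 < 1 - η by linarith)))
  refine thin_mono a _ _ hthin (max Q1 Q2) ?_
  intro q hq hq2 hqa hno hcut
  apply hno
  have h1 := hQ1 q (le_trans (le_max_left _ _) hq)
  have h2 := hQ2 q (le_trans (le_max_right _ _) hq)
  have hq1 : (1:ℝ) < q := by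
    have : 1 < q := by omega
    exact_mod_cast this
  have hqpos : (0:ℝ) < q := by linarith
  have hlq : 0 < Real.log q := Real.log_pos hq1
  have hη : (q:ℝ) ^ (-(-Real.log η / Real.log q)) = η := by
    rw [Real.rpow_def_of_pos hqpos, neg_div, neg_neg, mul_div_cancel₀ _ hlq.ne', Real.exp_log hη0]
  obtain ⟨hU, hL⟩ := hcut
  rw [hη] at hU
  set Lq := Real.logb 2 q with hLq
  have hLqpos : 0 < Lq := lt_of_lt_of_le (by positivity) h1
  have hδL : 1 ≤ δ / 2 * Lq := by
    rw [div_le_iff₀ hδ] at h1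
    linarith
  set n0 : ℕ := ⌈(1 + δ / 2) * Lq⌉₊ with hn0
  have hn0' : (n0 : ℝ) ≤ (1 + δ) * Lq := by
    have h3 := (Nat.ceil_lt_add_one (show 0 ≤ (1 + δ / 2) * Lq by positivity)).le
    rw [← hn0] at h3
    nlinarith
  have hex : ∃ n : ℕ, tv a q n ≤ η := ⟨n0, hU n0 (Nat.le_ceil _)⟩
  refine ⟨Nat.find hex, ⟨Nat.find_spec hex, fun n hn => Nat.find_min' hex hn⟩, ?_⟩
  set t := Nat.find hex with ht
  have hup : (t:ℝ) ≤ (1 + δ) * Lq := by
    have h3 : t ≤ n0 := Nat.find_min' hex (hU n0 (Nat.le_ceil _))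
    have h4 : (t:ℝ) ≤ n0 := by exact_mod_cast h3
    linarith
  have hlow : (1 - δ) * Lq ≤ t := by
    by_contra hcon
    push Not at hcon
    have h3 := hL t (by nlinarith)
    have h4 : tv a q t ≤ η := Nat.find_spec hex
    linarith
  rw [abs_le]
  constructor
  · rw [neg_le_sub_iff_le_add]
    have : 1 - δ ≤ (t:ℝ) / Lq := by
      rw [le_div_iff₀ hLqpos]; exact hlow
    linarith
  · have : (t:ℝ) / Lq ≤ 1 + δ := by
      rw [div_le_iff₀ hLqpos]; exact hup
    linarith

/-- **Theorem (cutoff).** Let `a ≥ 4` and `δ > 0`. For every `ω = o(1)` and almost all `q` coprime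
to `a`: `d_q(n) ≤ q ^ (-ω(q))` for all `n ≥ (1 + δ) log_2 q` and `d_q(n) ≥ 1 - q ^ (-δ)` for all
`n ≤ (1 - δ) log_2 q`. Consequently for every level `0 < η < 1` the mixing time at level `η`
(`η = 1/4` in the question) is within a factor `1 ± δ` of `log_2 q` for almost all `q`. -/
theorem result (a : ℕ) (ha : 4 ≤ a) (δ : ℝ) (hδ : 0 < δ) :
    (∀ ω : ℕ → ℝ, Tendsto ω atTop (𝓝 0) → Few a (fun q => ¬ Cut a q δ (ω q))) ∧
    ∀ η : ℝ, 0 < η → η < 1 →
      Few a (fun q => ¬ ∃ t : ℕ, IsMixingTime a q η t ∧ |(t : ℝ) / Real.logb 2 q - 1| ≤ δ) :=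
  ⟨fun ω hω => few_of_thin a (by omega) _ (thin_cut a ha δ hδ ω hω),
    fun η h0 h1 => few_of_thin a (by omega) _ (thin_level a ha δ hδ η h0 h1)⟩

end Pool.Agent.Results.MP_456481_pr.Cutoff
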